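import Pool.Agent.W201.NT.StmT

set_option autoImplicit false

open Finsupp

namespace Pool.Agent.W924.NT

open Pool.Agent.Helper381 Pool.Agent.W201.NT

section

variable (X : Type) [TopologicalSpace X] (S : Set X)

/-- the inclusion -/
def inc : C(↥S, X) := ⟨Subtype.val, continuous_subtype_val⟩

/-- the map of chains -/
noncomputable def J (n : ℕ) : (Sing ↥S n →₀ ℤ) →ₗ[ℤ] (Sing X n →₀ ℤ) :=
  Finsupp.lmapDomain ℤ ℤ (fun s : Sing ↥S n => ((inc X S).comp s : Sing X n))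

lemma comp_inj (n : ℕ) :
    Function.Injective (fun s : Sing ↥S n => ((inc X S).comp s : Sing X n)) := by
  intro s s' h
  apply ContinuousMap.ext
  intro x
  apply Subtype.ext
  exact congrArg (fun f : Sing X n => f x) h

lemma J_inj (n : ℕ) : Function.Injective (J X S n) := Finsupp.mapDomain_injective (comp_inj X S n)

lemma J_single (n : ℕ) (s : Sing ↥S n) (c : ℤ) :
    J X S n (single s c) = single ((inc X S).comp s : Sing X n) c :=
  Finsupp.mapDomain_single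

lemma J_bd (n : ℕ) (z : Sing ↥S (n + 1) →₀ ℤ) :
    bdR ℤ X n (J X S (n + 1) z) = J X S n (bdR ℤ ↥S n z) := by
  have h : (bdR ℤ X n).comp (J X S (n + 1)) = (J X S n).comp (bdR ℤ ↥S n) := by
    refine Finsupp.lhom_ext' fun σ => LinearMap.ext_ring ?_
    simp only [LinearMap.comp_apply, Finsupp.lsingle_apply]
    rw [J_single, bdR_single, bdR_single, map_sum]
    refine Finset.sum_congr rfl fun i _ => ?_
    rw [map_smul, J_single]
    rfl
  exact congrArg (fun f => f z) h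

lemma J_mem (n : ℕ) (z : Sing ↥S n →₀ ℤ) :
    J X S n z ∈ Finsupp.supported ℤ ℤ {σ : Sing X n | Set.range σ ⊆ S} := by
  rw [Finsupp.mem_supported]
  intro σ hσ
  classical
  have h := Finsupp.mapDomain_support hσ
  rw [Finset.mem_image] at h
  obtain ⟨s, -, rfl⟩ := h
  rintro _ ⟨x, rfl⟩
  exact (s x).2

lemma J_surj (n : ℕ) (z : Sing X n →₀ ℤ)
    (hz : z ∈ Finsupp.supported ℤ ℤ {σ : Sing X n | Set.range σ ⊆ S}) : ∃ w, J X S n w = z := by
  have h : Finsupp.supported ℤ ℤ {σ : Sing X n | Set.range σ ⊆ S} ≤ LinearMap.range (J X S n) := by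
    rw [Finsupp.supported_eq_span_single, Submodule.span_le]
    rintro _ ⟨σ, hσ, rfl⟩
    have hσ' : ∀ x, σ x ∈ S := fun x => hσ ⟨x, rfl⟩
    refine ⟨single (⟨fun x => ⟨σ x, hσ' x⟩, σ.continuous.subtype_mk _⟩ : Sing ↥S n) 1, ?_⟩
    rw [J_single]
    rfl
  exact h hz

lemma J_cyc (n : ℕ) (w : Sing ↥S n →₀ ℤ) : J X S n w ∈ Cyc ℤ X n ↔ w ∈ Cyc ℤ ↥S n := by
  rcases n with _ | n
  · exact ⟨fun _ => Submodule.mem_top, fun _ => Submodule.mem_top⟩
  · change bdR ℤ X n (J X S (n + 1) w) = 0 ↔ bdR ℤ ↥S n w = 0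
    rw [J_bd]
    exact ⟨fun h => J_inj X S n (by rw [h, map_zero]), fun h => by rw [h, map_zero]⟩

end

theorem main : S_SUB := by
  intro X _ S n
  constructor
  · intro hV z hz hzs
    obtain ⟨w, rfl⟩ := J_surj X S n z hzs
    obtain ⟨b, rfl⟩ := hV ((J_cyc X S n w).1 hz)
    exact ⟨J X S (n + 1) b, J_mem X S (n + 1) b, J_bd X S n b⟩
  · intro h w hw
    obtain ⟨b, hb, hb'⟩ := h (J X S n w) ((J_cyc X S n w).2 hw) (J_mem X S n w)
    obtain ⟨b', rfl⟩ := J_surj X S (n + 1) b hb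
    refine ⟨b', J_inj X S n ?_⟩
    rw [← J_bd, hb']

end Pool.Agent.W924.NT
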